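import Mathlib

/-! Exponent bookkeeping (linear programme) for the first-moment design
`x = 5/4`, `d = 17/80`, `y' = 17/40`; allowed excess `9/320`, certified need `a = 1113/40000`. -/

namespace QP

theorem polP (b r : ℝ) (hr : 0 ≤ r) (hrb : r ≤ b) :
    0 ≤ b * (371/9600 - 57731/180000 * b + 2/3 * b ^ 2) +
      r * (2597/48000 - 23339/45000 * b + 43/30 * b ^ 2 - 18947/180000 * r + 11/12 * b * r
        + 17/60 * r ^ 2) := by
  have hb : 0 ≤ b := hr.trans hrb
  have h1 : 0 ≤ 371/9600 - 57731/180000 * b + 2/3 * b ^ 2 := by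
    nlinarith [sq_nonneg (b - 57731/240000)]
  have h2 : 0 ≤ 2597/48000 - 23339/45000 * b + 43/30 * b ^ 2 - 18947/180000 * r + 11/12 * b * r
      + 17/60 * r ^ 2 := by
    rcases le_total b (3/25) with h | h
    · nlinarith [mul_nonneg hb hr, sq_nonneg r, sq_nonneg (b - 3/25), mul_nonneg hb (sub_nonneg.2 h)]
    · nlinarith [mul_nonneg (sub_nonneg.2 h) hr, sq_nonneg r, sq_nonneg (b - 18/100)]
  positivity

theorem polF1 (b r : ℝ) (hr : 0 ≤ r) (hrb : r ≤ b) :
    0 ≤ 371/8000 - 23339/60000 * b + 33/40 * b ^ 2 - 1661/60000 * r + 11/20 * b * r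
      + 13/40 * r ^ 2 := by
  have hb : 0 ≤ b := hr.trans hrb
  rcases le_total b (3/50) with h | h
  · nlinarith [mul_nonneg hb hr, sq_nonneg r, sq_nonneg b]
  · nlinarith [mul_nonneg (sub_nonneg.2 h) hr, sq_nonneg r, sq_nonneg (b - 2357/10000)]

theorem polF2 (b r : ℝ) (hr : 0 ≤ r) (hrb : r ≤ b) :
    0 ≤ 371/8000 - 19589/60000 * b + 33/40 * b ^ 2 - 5411/60000 * r + 17/20 * b * r
      + 13/40 * r ^ 2 := by
  have hb : 0 ≤ b := hr.trans hrb
  rcases le_total b (11/100) with h | h
  · nlinarith [mul_nonneg hb hr, sq_nonneg r, sq_nonneg (b - 11/100), mul_nonneg hb (sub_nonneg.2 h)]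
  · nlinarith [mul_nonneg (sub_nonneg.2 h) hr, sq_nonneg r, sq_nonneg (b - 1/5)]

/-- Core of the programme: `V = v (5/6 - 2 b)`. -/
theorem core (b q v w V : ℝ) (hq : 0 ≤ q) (hqb : q ≤ b) (hD : 0 < 5/6 - 2 * b) (hv : 0 ≤ v)
    (hV : V = v * (5/6 - 2 * b)) (hw : w ≤ 1/2) (hvw : v ≤ w)
    (C1 : 13/40 * b - 17/80 * q + 1113/40000 ≤ V)
    (h1 : 5/6 * v + min (17/40 * q) (q * (w - v)) < 2 * b * w)
    (h4 : b * (2 * w - 1/2) - 17/40 * q + 2 * (1113/40000)
      + 2 * q * min (17/80) ((1 - 2 * min w (17/40)) / 3) < V) : False := by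
  have hb : 0 ≤ b := hq.trans hqb
  have hg : 0 ≤ (2 * b - q) * (5/6 - 2 * b) := mul_nonneg (by linarith) hD.le
  have hE : 0 < 5/6 - q := by linarith
  rcases le_total (17/40) (w - v) with hc | hc
  · -- capped piece length
    have hw1 : 17/40 ≤ w := by linarith
    rw [min_eq_left (by nlinarith)] at h1
    rw [min_eq_right hw1, min_eq_right (by norm_num)] at h4
    have hb1 : 11/100 ≤ b := by nlinarith [mul_nonneg hb hv]
    have hV2 : V ≤ (w - 17/40) * (5/6 - 2 * b) := by
      rw [hV]; exact mul_le_mul_of_nonneg_right (by linarith) hD.le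
    nlinarith [mul_nonneg (sub_nonneg.2 hw1) (sub_nonneg.2 hb1)]
  · rw [min_eq_right (by nlinarith)] at h1
    have h1' : V * (5/6 - q) < w * ((2 * b - q) * (5/6 - 2 * b)) := by
      have : v * (5/6 - q) < w * (2 * b - q) := by linarith
      have := mul_lt_mul_of_pos_right this hD
      rw [hV]; linarith
    have F1 := polF1 b (b - q) (by linarith) (by linarith)
    rcases le_total (17/40) w with hw1 | hw1
    · rw [min_eq_right hw1, min_eq_right (by norm_num)] at h4
      have F2 := polF2 b (b - q) (by linarith) (by linarith)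
      have h5 := mul_lt_mul_of_pos_right h4 hE
      have e1 := mul_nonneg F1 (sub_nonneg.2 hw)
      have e2 := mul_nonneg F2 (sub_nonneg.2 hw1)
      nlinarith
    · rw [min_eq_left hw1] at h4
      rcases le_total w (29/160) with hw2 | hw2
      · have hv2 : V ≤ 29/160 * (5/6 - 2 * b) := by
          rw [hV]; exact mul_le_mul_of_nonneg_right (by linarith) hD.le
        have hb2 : b ≤ 13/50 := by linarith
        have h6 : v * (5/6 - q) < w * (2 * b - q) := by linarith
        have h7 : w * (2 * b - q) ≤ 29/160 * (2 * b - q) :=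
          mul_le_mul_of_nonneg_right hw2 (by linarith)
        have h8 : V ≤ v * (5/6 - q) := by
          rw [hV]; exact mul_le_mul_of_nonneg_left (by linarith) hv
        linarith
      · rw [min_eq_right (by linarith)] at h4
        have h5 := mul_lt_mul_of_pos_right h4 hE
        rcases le_total 0 ((2 * b - 4/3 * q) * (5/6 - q) - (2 * b - q) * (5/6 - 2 * b)) with
          hl | hl
        · have PP := polP b (b - q) (by linarith) (by linarith)
          have e1 := mul_le_mul_of_nonneg_left C1 hl
          have e2 := mul_le_mul_of_nonneg_left h4.le hg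
          have hr4 : 0 < 2 * b - 4/3 * q := by
            rcases hb.eq_or_lt with h0 | h0
            · exfalso
              have : q = 0 := le_antisymm (by linarith) hq
              subst this; rw [← h0] at h1' C1; nlinarith
            · linarith
          have e3 := mul_lt_mul_of_pos_left h1' hr4
          nlinarith
        · have e1 := mul_nonneg (neg_nonneg.2 hl) (sub_nonneg.2 hw1)
          nlinarith

/-- The programme. `s = 1 - c` is the saving in the count, `v` the cut of the zero detector. -/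
theorem lp (b q lam : ℝ) (hq : 0 ≤ q) (hqb : q ≤ b) (hl : lam ≤ 17/40 * b) :
    ∃ v : ℝ, 0 ≤ v ∧ v ≤ 1/2 ∧ ∀ w u s : ℝ, w ≤ 1/2 → 1 + v - w ≤ u → u ≤ 1 + v →
      (1 ≤ u → 2 * b * u - 5/6 * (u - 1) ≤ s) →
      (u ≤ 1 → 2 * b * u + 2 * q * min (17/80) ((1 - u) / 2) ≤ s) →
      2 * lam + 2 * b * w + 2 * q * min (17/80) ((1 - 2 * min w (17/40)) / 3) ≤ s →
      lam + 5/4 * b + 17/80 * q - 1113/40000 ≤ s := by
  have hb : 0 ≤ b := hq.trans hqb
  set sg := lam + 5/4 * b + 17/80 * q - 1113/40000 with hsg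
  have hs2 : sg < 2 * b := by rw [hsg]; linarith
  by_cases hA : (5/6 - 2 * b) / 2 ≤ 2 * b - sg
  · refine ⟨1/2, by norm_num, le_rfl, fun w u s hw hu1 hu2 H1 _ _ => ?_⟩
    have hu : 1 ≤ u := by linarith
    have := H1 hu
    rcases le_total 0 (5/6 - 2 * b) with h | h
    · nlinarith [mul_nonneg h (sub_nonneg.2 hu2)]
    · nlinarith [mul_nonneg (neg_nonneg.2 h) (sub_nonneg.2 hu)]
  · push Not at hA
    have hD : 0 < 5/6 - 2 * b := by linarith
    have hvD : (2 * b - sg) / (5/6 - 2 * b) * (5/6 - 2 * b) = 2 * b - sg := div_mul_cancel₀ _ hD.ne'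
    have hv0 : 0 ≤ (2 * b - sg) / (5/6 - 2 * b) := div_nonneg (by linarith) hD.le
    refine ⟨(2 * b - sg) / (5/6 - 2 * b), hv0, ?_, fun w u s hw hu1 hu2 H1 H2 H4 => ?_⟩
    · rw [div_le_iff₀ hD]; linarith
    set v := (2 * b - sg) / (5/6 - 2 * b) with hv
    rcases le_total 1 u with hu | hu
    · have := H1 hu
      nlinarith [mul_nonneg hD.le (sub_nonneg.2 hu2)]
    · by_contra hcon
      push Not at hcon
      have H2' := H2 hu
      refine core b q v w (2 * b - sg) hq hqb hD hv0 hvD.symm hw (by linarith)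
        (by rw [hsg]; linarith) ?_ (by rw [hsg] at hcon ⊢; linarith)
      have key : min (17/40 * q) (q * (w - v)) ≤
          2 * q * min (17/80) ((1 - u) / 2) + q * (u - (1 + v - w)) := by
        rcases le_total (17/80) ((1 - u) / 2) with h | h
        · rw [min_eq_left h]
          have := min_le_left (17/40 * q) (q * (w - v))
          nlinarith [mul_nonneg hq (sub_nonneg.2 hu1)]
        · rw [min_eq_right h]
          have := min_le_right (17/40 * q) (q * (w - v))
          nlinarith
      nlinarith [mul_nonneg (sub_nonneg.2 hqb) (sub_nonneg.2 hu1), mul_nonneg hb (sub_nonneg.2 hu1)]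

/-- The same with an error `e` in every hypothesis. -/
theorem lp_eps (e b q lam : ℝ) (he : 0 ≤ e) (hq : 0 ≤ q) (hb0 : 0 ≤ b) (hb : b ≤ 1)
    (hqb : q ≤ b + e) (hl : lam ≤ 17/40 * b + e) :
    ∃ v : ℝ, 0 ≤ v ∧ v ≤ 1/2 ∧ ∀ w u s : ℝ, -e ≤ w → w ≤ 1/2 + e → 1 + v - w - e ≤ u → u ≤ 1 + v + e →
      (1 ≤ u → 2 * b * u - 5/6 * (u - 1) ≤ s + e) →
      (u ≤ 1 → 2 * b * u + 2 * q * min (17/80) ((1 - u) / 2) ≤ s + e) →
      2 * lam + 2 * b * w + 2 * q * min (17/80) ((1 - 2 * min w (17/40)) / 3) ≤ s + e →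
      lam + 5/4 * b + 17/80 * q - 1113/40000 ≤ s + 10 * e := by
  obtain ⟨v, hv0, hv1, H⟩ := lp b (min q b) (min lam (17/40 * b)) (le_min hq hb0)
    (min_le_right _ _) (min_le_right _ _)
  refine ⟨v, hv0, hv1, fun w u s hwe hw hu1 hu2 H1 H2 H4 => ?_⟩
  have hq1 : min q b ≤ q := min_le_left _ _
  have hq2 : q - e ≤ min q b := le_min (by linarith) (by linarith)
  have hq3 : min q b ≤ 1 := (min_le_right _ _).trans hb
  have hq0 : 0 ≤ min q b := le_min hq hb0
  have hl1 : min lam (17/40 * b) ≤ lam := min_le_left _ _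
  have hl2 : lam - e ≤ min lam (17/40 * b) := le_min (by linarith) (by linarith)
  generalize min q b = q' at *
  generalize min lam (17/40 * b) = l' at *
  have hw1 : min w (1/2) ≤ w := min_le_left _ _
  have hw2 : w - e ≤ min w (1/2) := le_min (by linarith) (by linarith)
  have hw3 : min w (1/2) ≤ 1/2 := min_le_right _ _
  have hw4 : min (min w (1/2)) (17/40) = min w (17/40) := by
    rw [min_assoc]; norm_num
  rcases le_total 0 (min w (1/2)) with hw0 | hw0
  swap
  · -- then `u ≥ 1 + v - 2 e`
    have := H 0 (1 + v) (s + 8 * e) (by norm_num) (by linarith) le_rfl ?_ ?_ ?_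
    · linarith
    · intro _
      rcases le_total 1 u with h | h
      · have := H1 h
        nlinarith [mul_le_mul_of_nonneg_left (show 1 + v - u ≤ 2 * e by linarith) hb0,
          mul_le_mul_of_nonneg_right hb he]
      · have := H2 h
        have h0 : 0 ≤ 2 * q * min (17/80) ((1 - u) / 2) :=
          mul_nonneg (by linarith) (le_min (by norm_num) (by linarith))
        nlinarith [mul_le_mul_of_nonneg_left (show 1 + v - u ≤ 2 * e by linarith) hb0,
          mul_le_mul_of_nonneg_right hb he]
    · intro h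
      have hv : v = 0 := by linarith
      subst hv
      have e0 : min (17/80 : ℝ) ((1 - (1 + 0)) / 2) = 0 := by norm_num
      rw [e0]
      rcases le_total 1 u with h | h
      · have := H1 h
        nlinarith [mul_le_mul_of_nonneg_left (show 1 - u ≤ 2 * e by linarith) hb0,
          mul_le_mul_of_nonneg_right hb he]
      · have := H2 h
        have h0 : 0 ≤ 2 * q * min (17/80) ((1 - u) / 2) :=
          mul_nonneg (by linarith) (le_min (by norm_num) (by linarith))
        nlinarith [mul_le_mul_of_nonneg_left (show 1 - u ≤ 2 * e by linarith) hb0,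
          mul_le_mul_of_nonneg_right hb he]
    · have hwn : w ≤ 0 := by
        by_contra hc
        push Not at hc
        exact absurd hw0 (not_le.2 (lt_min hc (by norm_num)))
      rw [min_eq_left (show w ≤ 17/40 by linarith),
        min_eq_left (show (17/80 : ℝ) ≤ (1 - 2 * w) / 3 by linarith)] at H4
      have e0 : min (17/80 : ℝ) ((1 - 2 * min 0 (17/40)) / 3) = 17/80 := by norm_num
      rw [e0]
      nlinarith [mul_le_mul_of_nonneg_left hwe hb0, mul_le_mul_of_nonneg_right hb he]
  set w' := min w (1/2) with hw'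
  have hu3 : 1 + v - w' ≤ max (min u (1 + v)) (1 + v - w') := le_max_right _ _
  have hu4 : max (min u (1 + v)) (1 + v - w') ≤ 1 + v := max_le (min_le_right _ _) (by linarith)
  have hu5 : max (min u (1 + v)) (1 + v - w') ≤ u + 2 * e :=
    max_le ((min_le_left _ _).trans (by linarith)) (by linarith)
  have hu6 : u - 2 * e ≤ max (min u (1 + v)) (1 + v - w') :=
    le_max_of_le_left (le_min (by linarith) (by linarith))
  have := H w' _ (s + 8 * e) hw3 hu3 hu4 ?_ ?_ ?_
  · linarith
  all_goals generalize max (min u (1 + v)) (1 + v - w') = u' at *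
  all_goals have k1 := mul_le_mul_of_nonneg_left hu5 hb0
  all_goals have k2 := mul_le_mul_of_nonneg_right hb he
  · intro h'
    rcases le_total 1 u with h | h
    · have := H1 h
      nlinarith
    · have := H2 h
      have h0 : 0 ≤ 2 * q * min (17/80) ((1 - u) / 2) :=
        mul_nonneg (by linarith) (le_min (by norm_num) (by linarith))
      nlinarith
  · intro h'
    have k3 := mul_le_mul_of_nonneg_right hq3 he
    rcases le_total 1 u with h | h
    · have := H1 h
      have k4 : min (17/80) ((1 - u') / 2) ≤ e := (min_le_right _ _).trans (by linarith)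
      have k5 := mul_le_mul_of_nonneg_left k4 hq0
      nlinarith
    · have := H2 h
      have k4 : min (17/80) ((1 - u') / 2) ≤ min (17/80) ((1 - u) / 2) + e := by
        rw [← min_add_add_right]; exact min_le_min (by linarith) (by linarith)
      have k5 := mul_le_mul_of_nonneg_left k4 hq0
      have k6 : 0 ≤ min (17/80) ((1 - u) / 2) := le_min (by norm_num) (by linarith)
      have k7 := mul_le_mul_of_nonneg_right hq1 k6
      nlinarith
  · rw [hw4]
    have k6 : 0 ≤ min (17/80) ((1 - 2 * min w (17/40)) / 3) :=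
      le_min (by norm_num) (by linarith [min_le_right w (17/40)])
    have k7 := mul_le_mul_of_nonneg_right hq1 k6
    have k8 := mul_le_mul_of_nonneg_left hw1 hb0
    nlinarith

end QP
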