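import Pool.Agent.P.MP_323ce2_nt.QP.Pol

/-! The flat programme with a weight: `x = 5/4`, `d = 4247/20000`, `a = 2813/100000`. -/

namespace QP

theorem R4_lin (b q w : ℝ) : R4 b q w = R4 b q 0 + (2 * b - 4/3 * q) * w := by
  simp only [R4]; ring

/-- the first witness, multiplied by `5/6 - 2 b` -/
theorem wit1 {b q v w V : ℝ} (hq : 0 ≤ q) (hD : 0 < 5/6 - 2 * b)
    (hV : V = v * (5/6 - 2 * b))
    (h1 : 5/6 * v + min (4247/10000 * q) (q * (w - v)) < 2 * b * w) :
    (4247/10000 ≤ w - v ∧ 5/6 * V < (5/6 - 2 * b) * (2 * b * w - 4247/10000 * q)) ∨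
      V * (5/6 - q) < w * gg b q := by
  rcases le_total (4247/10000) (w - v) with hc | hc
  · rw [min_eq_left (by nlinarith)] at h1
    have := mul_lt_mul_of_pos_left (show 5/6 * v < 2 * b * w - 4247/10000 * q by linarith) hD
    exact Or.inl ⟨hc, by rw [hV]; linarith⟩
  · rw [min_eq_right (by nlinarith)] at h1
    have := mul_lt_mul_of_pos_right (show v * (5/6 - q) < w * (2 * b - q) by linarith) hD
    exact Or.inr (by rw [hV, gg]; linarith)

theorem coreA (b q v w V k : ℝ) (hq : 0 ≤ q) (hqb : q ≤ b) (hb : b ≤ 1/5) (hv : 0 ≤ v)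
    (hk : 0 ≤ k) (hV : V = v * (5/6 - 2 * b)) (hw : w ≤ 1/2)
    (C1 : R1 b q + k * (1 + 20 * b) / 3 < V)
    (h1 : 5/6 * v + min (4247/10000 * q) (q * (w - v)) < 2 * b * w)
    (h4 : 3/10 ≤ w → R4 b q w - 2 * k * (1 - 5 * b) < V) : False := by
  have hb0 : 0 ≤ b := hq.trans hqb
  have hD : 0 < 5/6 - 2 * b := by linarith
  have hE : 0 < 5/6 - q := by linarith
  have hg : 0 ≤ gg b q := mul_nonneg (by linarith) hD.le
  have hN : 3/10 ≤ w → NN b q w ≤ (7 - 10 * b) * V := fun h => by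
    have e1 := mul_le_mul_of_nonneg_left C1.le (show 0 ≤ 6 * (1 - 5 * b) by linarith)
    have e2 := mul_le_mul_of_nonneg_left (h4 h).le (show 0 ≤ 1 + 20 * b by linarith)
    simp only [NN]; nlinarith
  have h7 : 0 < 7 - 10 * b := by linarith
  have hNl : ∀ w₁ w₂ : ℝ, NN b q w * (w₂ - w₁) = NN b q w₁ * (w₂ - w) + NN b q w₂ * (w - w₁) := by
    intro w₁ w₂; simp only [NN, R4]; ring
  rcases wit1 hq hD hV h1 with ⟨hc, h⟩ | h
  · have hw1 : 4247/10000 ≤ w := by linarith
    have e0 := hN (by linarith)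
    have e1 := mul_nonneg (pG5a hq hqb hb) (sub_nonneg.2 hw)
    have e2 := mul_nonneg (pG5b hq hqb hb) (sub_nonneg.2 hw1)
    have e3 := mul_lt_mul_of_pos_left h h7
    have e4 := hNl (4247/10000) (1/2)
    nlinarith
  · rcases le_total w (3/10) with hw1 | hw1
    · have e1 := pG1 hq hqb hb
      have e2 := mul_le_mul_of_nonneg_right hw1 hg
      have e3 : R1 b q ≤ V := by nlinarith [mul_nonneg hk (show 0 ≤ 1 + 20 * b by linarith)]
      have e4 := mul_le_mul_of_nonneg_right e3 hE.le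
      linarith
    · have e0 := mul_le_mul_of_nonneg_right (hN hw1) hE.le
      have e1 := mul_nonneg (pG2 hq hqb hb) (sub_nonneg.2 hw)
      have e2 := mul_nonneg (pG3 hq hqb hb) (sub_nonneg.2 hw1)
      have e3 := mul_lt_mul_of_pos_left h h7
      have e4 := congrArg (· * (5/6 - q)) (hNl (3/10) (1/2))
      nlinarith

theorem coreB (b q v w V : ℝ) (hq : 0 ≤ q) (hqb : q ≤ b) (hb : 1/5 ≤ b) (hD : 0 < 5/6 - 2 * b)
    (hv : 0 ≤ v) (hV : V = v * (5/6 - 2 * b)) (hw : w ≤ 1/2) (hvw : v ≤ w) (C1 : R1 b q < V)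
    (h1 : 5/6 * v + min (4247/10000 * q) (q * (w - v)) < 2 * b * w)
    (h4 : 7259/40000 ≤ w → R4 b q w < V) : False := by
  have hE : 0 < 5/6 - q := by linarith
  have hg : 0 ≤ gg b q := mul_nonneg (by linarith) hD.le
  rcases wit1 hq hD hV h1 with ⟨hc, _⟩ | h
  · have hw1 : 4247/10000 ≤ w := by linarith
    have e0 := h4 (by linarith)
    have e1 : V ≤ (w - 4247/10000) * (5/6 - 2 * b) := by
      rw [hV]; exact mul_le_mul_of_nonneg_right (by linarith) hD.le
    simp only [R4] at e0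
    nlinarith [mul_nonneg (sub_nonneg.2 hw1) (sub_nonneg.2 hb),
      mul_nonneg (sub_nonneg.2 hw1) (sub_nonneg.2 hqb)]
  · rcases le_total w (7259/40000) with hw1 | hw1
    · have e1 : V ≤ 7259/40000 * (5/6 - 2 * b) := by
        rw [hV]; exact mul_le_mul_of_nonneg_right (by linarith) hD.le
      have e2 : v * (5/6 - q) < w * (2 * b - q) := by
        rw [hV, gg] at h
        exact lt_of_mul_lt_mul_right (by linarith) hD.le
      have e3 : w * (2 * b - q) ≤ 7259/40000 * (2 * b - q) :=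
        mul_le_mul_of_nonneg_right hw1 (by linarith)
      have e4 : V ≤ v * (5/6 - q) := by
        rw [hV]; exact mul_le_mul_of_nonneg_left (by linarith) hv
      simp only [R1] at C1
      linarith
    · have e0 := h4 hw1
      rcases le_total 0 ((2 * b - 4/3 * q) * (5/6 - q) - gg b q) with hl | hl
      · have PP := pP hq hqb hb
        have e1 := mul_le_mul_of_nonneg_left C1.le hl
        rw [R4_lin] at e0
        have e2 := mul_le_mul_of_nonneg_left e0.le hg
        have e3 := mul_lt_mul_of_pos_left h (show 0 < 2 * b - 4/3 * q by linarith)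
        nlinarith
      · have e1 := mul_nonneg (neg_nonneg.2 hl) (sub_nonneg.2 hw)
        have e2 := pF hq hqb hb
        rw [R4_lin] at e0 e2
        have e3 := mul_lt_mul_of_pos_right e0 hE
        nlinarith

/-- The flat programme. `s` is the saving in the count, `v` the cut of the detector, `k` the
exponent of the weight. -/
theorem lp2 (b q lam k : ℝ) (hq : 0 ≤ q) (hqb : q ≤ b) (hk : 0 ≤ k) :
    ∃ v : ℝ, 0 ≤ v ∧ v ≤ 1/2 ∧ ∀ w u s : ℝ, w ≤ 1/2 → 1 + v - w ≤ u → u ≤ 1 + v →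
      (1 ≤ u → 2 * b * u - 5/6 * (u - 1) ≤ s) →
      (u ≤ 1 → 2 * b * u + 2 * q * min (4247/20000) ((1 - u) / 2) ≤ s) →
      2 * lam + 2 * b * w + 2 * q * min (4247/20000) ((1 - 2 * w) / 3) ≤ s →
      4 * lam + 5 * k ≤ s →
      lam + b * (5/4 - 5 * k) + 4247/20000 * q + k - 2813/100000 ≤ s := by
  have hb : 0 ≤ b := hq.trans hqb
  set sg := lam + b * (5/4 - 5 * k) + 4247/20000 * q + k - 2813/100000 with hsg
  by_cases h0 : sg ≤ 4 * lam + 5 * k
  · exact ⟨0, le_rfl, by norm_num, fun w u s _ _ _ _ _ _ H5 => h0.trans H5⟩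
  push Not at h0
  have hbk := mul_nonneg hb hk
  have hs2 : sg < 2 * b := by rw [hsg] at h0 ⊢; nlinarith
  by_cases hA : (5/6 - 2 * b) / 2 ≤ 2 * b - sg
  · refine ⟨1/2, by norm_num, le_rfl, fun w u s hw hu1 hu2 H1 _ _ _ => ?_⟩
    have hu : 1 ≤ u := by linarith
    have := H1 hu
    rcases le_total 0 (5/6 - 2 * b) with h | h
    · nlinarith [mul_nonneg h (sub_nonneg.2 hu2)]
    · nlinarith [mul_nonneg (neg_nonneg.2 h) (sub_nonneg.2 hu)]
  push Not at hA
  have hD : 0 < 5/6 - 2 * b := by linarith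
  have hvD : (2 * b - sg) / (5/6 - 2 * b) * (5/6 - 2 * b) = 2 * b - sg := div_mul_cancel₀ _ hD.ne'
  have hv0 : 0 ≤ (2 * b - sg) / (5/6 - 2 * b) := div_nonneg (by linarith) hD.le
  refine ⟨(2 * b - sg) / (5/6 - 2 * b), hv0, ?_, fun w u s hw hu1 hu2 H1 H2 H4 _ => ?_⟩
  · rw [div_le_iff₀ hD]; linarith
  set v := (2 * b - sg) / (5/6 - 2 * b) with hv
  rcases le_total 1 u with hu | hu
  · have := H1 hu
    nlinarith [mul_nonneg hD.le (sub_nonneg.2 hu2)]
  by_contra hcon
  push Not at hcon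
  have H2' := H2 hu
  have key : min (4247/10000 * q) (q * (w - v)) ≤
      2 * q * min (4247/20000) ((1 - u) / 2) + q * (u - (1 + v - w)) := by
    rcases le_total (4247/20000) ((1 - u) / 2) with h | h
    · rw [min_eq_left h]
      have := min_le_left (4247/10000 * q) (q * (w - v))
      nlinarith [mul_nonneg hq (sub_nonneg.2 hu1)]
    · rw [min_eq_right h]
      have := min_le_right (4247/10000 * q) (q * (w - v))
      nlinarith
  have h1 : 5/6 * v + min (4247/10000 * q) (q * (w - v)) < 2 * b * w := by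
    nlinarith [mul_nonneg (sub_nonneg.2 hqb) (sub_nonneg.2 hu1), mul_nonneg hb (sub_nonneg.2 hu1)]
  have C1 : R1 b q + k * (1 + 20 * b) / 3 < 2 * b - sg := by
    rw [hsg] at h0 ⊢; simp only [R1]; linarith
  have C4 : 7259/40000 ≤ w → R4 b q w - 2 * k * (1 - 5 * b) < 2 * b - sg := fun h => by
    rw [min_eq_right (by linarith)] at H4
    rw [hsg] at hcon ⊢; simp only [R4]; linarith
  rcases le_total b (1/5) with h5 | h5
  · exact coreA b q v w _ k hq hqb h5 hv0 hk hvD.symm hw C1 h1 fun h => C4 (by linarith)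
  · refine coreB b q v w _ hq hqb h5 hD hv0 hvD.symm hw (by linarith) (by nlinarith) h1 fun h => ?_
    have := C4 h
    nlinarith [mul_nonneg hk (sub_nonneg.2 h5)]

/-- The same with an error `e` in every hypothesis. -/
theorem lp2_eps (e b q lam k : ℝ) (he : 0 ≤ e) (he1 : e ≤ 1) (hq : 0 ≤ q) (hb0 : 0 ≤ b) (hb : b ≤ 1)
    (hqb : q ≤ b + e) (hk : 0 ≤ k) :
    ∃ v : ℝ, 0 ≤ v ∧ v ≤ 1/2 ∧ ∀ w u s : ℝ, -e ≤ w → w ≤ 1/2 + e → 1 + v - w - e ≤ u →
      u ≤ 1 + v + e →
      (1 ≤ u → 2 * b * u - 5/6 * (u - 1) ≤ s + e) →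
      (u ≤ 1 → 2 * b * u + 2 * q * min (4247/20000) ((1 - u) / 2) ≤ s + e) →
      2 * lam + 2 * b * w + 2 * q * min (4247/20000) ((1 - 2 * w) / 3) ≤ s + e →
      4 * lam + 5 * k ≤ s + e →
      lam + b * (5/4 - 5 * k) + 4247/20000 * q + k - 2813/100000 ≤ s + 10 * e := by
  obtain ⟨v, hv0, hv1, H⟩ := lp2 b (min q b) lam k (le_min hq hb0) (min_le_right _ _) hk
  refine ⟨v, hv0, hv1, fun w u s hwe hw hu1 hu2 H1 H2 H4 H5 => ?_⟩
  have hq1 : min q b ≤ q := min_le_left _ _
  have hq2 : q - e ≤ min q b := le_min (by linarith) (by linarith)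
  have hq3 : min q b ≤ 1 := (min_le_right _ _).trans hb
  have hq4 : min q b ≤ b := min_le_right _ _
  have hq0 : 0 ≤ min q b := le_min hq hb0
  generalize min q b = q' at *
  obtain ⟨w', hw0, hw3, hw1, hw2⟩ : ∃ w' : ℝ, 0 ≤ w' ∧ w' ≤ 1/2 ∧ w' ≤ w + e ∧ w - e ≤ w' :=
    ⟨max 0 (min w (1/2)), le_max_left _ _, max_le (by norm_num) (min_le_right _ _),
      max_le (by linarith) ((min_le_left _ _).trans (by linarith)),
      le_max_of_le_right (le_min (by linarith) (by linarith))⟩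
  obtain ⟨u', hu3, hu4, hu5, hu6⟩ :
      ∃ u' : ℝ, 1 + v - w' ≤ u' ∧ u' ≤ 1 + v ∧ u' ≤ u + 2 * e ∧ u - 2 * e ≤ u' :=
    ⟨max (min u (1 + v)) (1 + v - w'), le_max_right _ _, max_le (min_le_right _ _) (by linarith),
      max_le ((min_le_left _ _).trans (by linarith)) (by linarith),
      le_max_of_le_left (le_min (by linarith) (by linarith))⟩
  have k1 := mul_le_mul_of_nonneg_left hu5 hb0
  have k2 := mul_le_mul_of_nonneg_right hb he
  have k3 := mul_le_mul_of_nonneg_right hq3 he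
  have := H w' u' (s + 8 * e) hw3 hu3 hu4 ?_ ?_ ?_ (by linarith)
  · linarith
  · intro h'
    rcases le_total 1 u with h | h
    · have := H1 h
      nlinarith
    · have := H2 h
      have h0 : 0 ≤ 2 * q * min (4247/20000) ((1 - u) / 2) :=
        mul_nonneg (by linarith) (le_min (by norm_num) (by linarith))
      nlinarith
  · intro h'
    rcases le_total 1 u with h | h
    · have := H1 h
      have k4 : min (4247/20000) ((1 - u') / 2) ≤ e := (min_le_right _ _).trans (by linarith)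
      have k5 := mul_le_mul_of_nonneg_left k4 hq0
      nlinarith
    · have := H2 h
      have k4 : min (4247/20000) ((1 - u') / 2) ≤ min (4247/20000) ((1 - u) / 2) + e := by
        rw [← min_add_add_right]; exact min_le_min (by linarith) (by linarith)
      have k5 := mul_le_mul_of_nonneg_left k4 hq0
      have k6 : 0 ≤ min (4247/20000) ((1 - u) / 2) := le_min (by norm_num) (by linarith)
      have k7 := mul_le_mul_of_nonneg_right hq1 k6
      nlinarith
  · have k8 := mul_le_mul_of_nonneg_left hw1 hb0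
    have k4 : min (4247/20000) ((1 - 2 * w') / 3) ≤ min (4247/20000) ((1 - 2 * w) / 3) + e := by
      rw [← min_add_add_right]; exact min_le_min (by linarith) (by linarith)
    have k5 := mul_le_mul_of_nonneg_left k4 hq0
    rcases le_total 0 (min (4247/20000) ((1 - 2 * w) / 3)) with k6 | k6
    · have k7 := mul_le_mul_of_nonneg_right hq1 k6
      nlinarith
    · have k9 : -(2/3 * e) ≤ min (4247/20000) ((1 - 2 * w) / 3) :=
        le_min (by linarith) (by linarith)
      have k7 := mul_le_mul_of_nonneg_left k9 hq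
      have k10 := mul_le_mul_of_nonneg_right (show q ≤ 2 by linarith) he
      have k11 := mul_nonneg hq0 (neg_nonneg.2 k6)
      nlinarith

end QP
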