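import Pool.Agent.P.MP_323ce2_nt.QP.Pol
import Pool.Agent.P.MP_323ce2_nt.QX.Top

/-! The linear programme in the form of the interface `S_LP`. -/

namespace QP

variable {b q : ℝ}

theorem qP (hq : 0 ≤ q) (hqb : q ≤ b) :
    0 ≤ ((2 * b - 4/3 * q) * (5/6 - q) - gg b q) * R1 b q + gg b q * R4 b q 0 := by
  rcases le_total (1/5) b with hb | hb
  · exact pP hq hqb hb
  obtain ⟨r, rfl⟩ : ∃ r, q = b - r := ⟨b - q, by ring⟩
  have hr : 0 ≤ r := by linarith
  have hb0 : 0 ≤ b := by linarith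
  have h1 := mul_nonneg hb0 (sq_nonneg (b - 1/4))
  have h2 := mul_nonneg hr (sq_nonneg (b - 17/100))
  have h3 := mul_nonneg (mul_nonneg hr hr) hb0
  have h4 := mul_nonneg (mul_nonneg hr hr) hr
  have h5 := mul_nonneg hr hq
  have h6 := mul_nonneg hr (sub_nonneg.2 hb)
  have h7 := mul_nonneg hb0 (sub_nonneg.2 hb)
  have h8 := mul_nonneg h6 hb0
  have h9 := mul_nonneg h5 (sub_nonneg.2 hb)
  simp only [R1, R4, gg]
  nlinarith

theorem qF (hq : 0 ≤ q) (hqb : q ≤ b) : 0 ≤ R4 b q (1/2) * (5/6 - q) - 1/2 * gg b q := by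
  rcases le_total (1/5) b with hb | hb
  · exact pF hq hqb hb
  obtain ⟨r, rfl⟩ : ∃ r, q = b - r := ⟨b - q, by ring⟩
  have hr : 0 ≤ r := by linarith
  have hb0 : 0 ≤ b := by linarith
  simp only [R4, gg]
  nlinarith [sq_nonneg (b - 1/5), mul_nonneg hr hb0, mul_nonneg hr hr]

theorem qG6a (hq : 0 ≤ q) (hqb : q ≤ b) :
    0 ≤ R4 b q (1/3) * (5/6 + q / 2) - (5/6 - 2 * b) * (1/3 * (2 * b + q / 2) - q / 2) := by
  simp only [R4]
  nlinarith [sq_nonneg (b - 16/100), mul_nonneg hq (sub_nonneg.2 hqb), sq_nonneg (b - 2/10),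
    mul_nonneg hq hq, mul_nonneg hq (hq.trans hqb)]

theorem qG6b (hq : 0 ≤ q) (hqb : q ≤ b) :
    0 ≤ R4 b q (1/2) * (5/6 + q / 2) - (5/6 - 2 * b) * (1/2 * (2 * b + q / 2) - q / 2) := by
  obtain ⟨r, rfl⟩ : ∃ r, q = b - r := ⟨b - q, by ring⟩
  have hr : 0 ≤ r := by linarith
  simp only [R4]
  nlinarith [sq_nonneg (b - 1737/10000), mul_nonneg hr hq, mul_nonneg hr hr]

theorem R4_lin' (b q w : ℝ) : R4 b q w = R4 b q 0 + (2 * b - 4/3 * q) * w := by
  simp only [R4]; ring

theorem coreC (b q v w V : ℝ) (hq : 0 ≤ q) (hqb : q ≤ b) (hD : 0 < 5/6 - 2 * b)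
    (hv : 0 ≤ v) (hV : V = v * (5/6 - 2 * b)) (hw : w ≤ 1/2) (hvw : v ≤ w) (C1 : R1 b q < V)
    (h1 : 5/6 * v + min (q * (w - v)) (q * (1 + v - w) / 2) < 2 * b * w)
    (h4 : 7259/40000 ≤ w → R4 b q w < V) : False := by
  have hE : 0 < 5/6 - q := by linarith
  have hg : 0 ≤ gg b q := mul_nonneg (by linarith) hD.le
  rcases le_total (1/3) (w - v) with hc | hc
  · rw [min_eq_right (by nlinarith)] at h1
    have hw1 : 1/3 ≤ w := by linarith
    have e0 := mul_lt_mul_of_pos_right (h4 (by linarith)) (show 0 < 5/6 + q / 2 by linarith)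
    have e1 := mul_nonneg (qG6a hq hqb) (sub_nonneg.2 hw)
    have e2 := mul_nonneg (qG6b hq hqb) (sub_nonneg.2 hw1)
    have e3 := mul_lt_mul_of_pos_right
      (show v * (5/6 + q / 2) < w * (2 * b + q / 2) - q / 2 by linarith) hD
    rw [R4_lin'] at e0 e1
    rw [R4_lin' b q (1/2)] at e2
    rw [hV] at e0
    nlinarith
  rw [min_eq_left (by nlinarith)] at h1
  have e2 : v * (5/6 - q) < w * (2 * b - q) := by linarith
  have h : V * (5/6 - q) < w * gg b q := by
    have := mul_lt_mul_of_pos_right e2 hD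
    rw [hV, gg]; linarith
  rcases le_total w (7259/40000) with hw1 | hw1
  · have e1 : V ≤ 7259/40000 * (5/6 - 2 * b) := by
      rw [hV]; exact mul_le_mul_of_nonneg_right (by linarith) hD.le
    have e3 : w * (2 * b - q) ≤ 7259/40000 * (2 * b - q) :=
      mul_le_mul_of_nonneg_right hw1 (by linarith)
    have e4 : V ≤ v * (5/6 - q) := by
      rw [hV]; exact mul_le_mul_of_nonneg_left (by linarith) hv
    simp only [R1] at C1
    linarith
  have e0 := h4 hw1
  rcases le_total 0 ((2 * b - 4/3 * q) * (5/6 - q) - gg b q) with hl | hl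
  · have PP := qP hq hqb
    have e1 := mul_le_mul_of_nonneg_left C1.le hl
    rw [R4_lin'] at e0
    have e5 := mul_le_mul_of_nonneg_left e0.le hg
    have hb : 0 < b := by
      simp only [R1] at C1
      by_contra hb
      have hb0 : b = 0 := le_antisymm (not_lt.1 hb) (hq.trans hqb)
      have hq0 : q = 0 := le_antisymm (hb0 ▸ hqb) hq
      subst hb0; subst hq0; linarith
    have e3 := mul_lt_mul_of_pos_left h (show 0 < 2 * b - 4/3 * q by linarith)
    nlinarith
  · have e1 := mul_nonneg (neg_nonneg.2 hl) (sub_nonneg.2 hw)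
    have e5 := qF hq hqb
    rw [R4_lin'] at e0 e5
    have e3 := mul_lt_mul_of_pos_right e0 hE
    nlinarith

/-- family of size one -/
theorem lpU (b q l : ℝ) (hq : 0 ≤ q) (hqb : q ≤ b) :
    ∃ v : ℝ, 0 ≤ v ∧ v ≤ 1/2 ∧ ∀ u w s : ℝ, 1 + v ≤ u + w → u ≤ 1 + v → 4 * l ≤ s →
      4 * b * w ≤ s → (u ≤ 1 → 2 * b * u + 2 * q * min ((1 - u) / 2) (u / 4) ≤ s) →
      (1 ≤ u → 2 * b * u - 5/6 * (u - 1) ≤ s) →
      2 * l + 2 * b * w + 2 * q * min (4247/20000) (max 0 (1 - 2 * w) / 3) ≤ s →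
      l + 5/4 * b + q * (4247/20000) - 2813/100000 ≤ s := by
  have hb : 0 ≤ b := hq.trans hqb
  set sg := l + 5/4 * b + q * (4247/20000) - 2813/100000 with hsg
  by_cases h0 : sg ≤ 4 * l
  · exact ⟨0, le_rfl, by norm_num, fun u w s _ _ H5 _ _ _ _ => h0.trans H5⟩
  push Not at h0
  have hs2 : sg < 2 * b := by rw [hsg] at h0 ⊢; linarith
  have big : ∀ w s : ℝ, 1/2 ≤ w → 4 * b * w ≤ s →
      2 * l + 2 * b * w + 2 * q * min (4247/20000) (max 0 (1 - 2 * w) / 3) ≤ s → sg ≤ s := by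
    intro w s hw H3 H4
    have := mul_nonneg hq (le_min (show (0 : ℝ) ≤ 4247/20000 by norm_num)
      (div_nonneg (le_max_left 0 (1 - 2 * w)) (show (0 : ℝ) ≤ 3 by norm_num)))
    have := mul_le_mul_of_nonneg_left hw hb
    rw [hsg]; linarith
  by_cases hA : (5/6 - 2 * b) / 2 ≤ 2 * b - sg
  · refine ⟨1/2, by norm_num, le_rfl, fun u w s hu1 hu2 _ H3 _ H1 H4 => ?_⟩
    rcases le_total (1/2) w with hw | hw
    · exact big w s hw H3 H4
    have hu : 1 ≤ u := by linarith
    have := H1 hu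
    rcases le_total 0 (5/6 - 2 * b) with h | h
    · nlinarith [mul_nonneg h (sub_nonneg.2 hu2)]
    · nlinarith [mul_nonneg (neg_nonneg.2 h) (sub_nonneg.2 hu)]
  push Not at hA
  have hD : 0 < 5/6 - 2 * b := by linarith
  have hvD : (2 * b - sg) / (5/6 - 2 * b) * (5/6 - 2 * b) = 2 * b - sg := div_mul_cancel₀ _ hD.ne'
  have hv0 : 0 ≤ (2 * b - sg) / (5/6 - 2 * b) := div_nonneg (by linarith) hD.le
  refine ⟨(2 * b - sg) / (5/6 - 2 * b), hv0, ?_, fun u w s hu1 hu2 _ H3 H2 H1 H4 => ?_⟩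
  · rw [div_le_iff₀ hD]; linarith
  set v := (2 * b - sg) / (5/6 - 2 * b) with hv
  rcases le_total (1/2) w with hw | hw
  · exact big w s hw H3 H4
  rcases le_total 1 u with hu | hu
  · have := H1 hu
    nlinarith [mul_nonneg hD.le (sub_nonneg.2 hu2)]
  by_contra hcon
  push Not at hcon
  have H2' := H2 hu
  have hu3 : 0 ≤ u - (1 + v - w) := by linarith
  have key : min (q * (w - v)) (q * (1 + v - w) / 2) ≤
      2 * q * min ((1 - u) / 2) (u / 4) + q * (u - (1 + v - w)) := by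
    rcases le_total ((1 - u) / 2) (u / 4) with h | h
    · rw [min_eq_left h]
      have := min_le_left (q * (w - v)) (q * (1 + v - w) / 2)
      nlinarith
    · rw [min_eq_right h]
      have := min_le_right (q * (w - v)) (q * (1 + v - w) / 2)
      nlinarith [mul_nonneg hq hu3]
  refine coreC b q v w _ hq hqb hD hv0 hvD.symm hw (by linarith) ?_ ?_ fun h => ?_
  · rw [hsg] at h0 ⊢; simp only [R1]; linarith
  · nlinarith [mul_nonneg (sub_nonneg.2 hqb) hu3, mul_nonneg hb hu3]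
  · rw [max_eq_right (by linarith), min_eq_right (by linarith)] at H4
    rw [hsg] at hcon ⊢; simp only [R4]; linarith

/-- family of size `μ`, no errors -/
theorem lpM (μ b q l : ℝ) (hμ : 0 ≤ μ) (hμ1 : μ ≤ 1) (hq : 0 ≤ q) (hqb : q ≤ b) :
    ∃ k : ℝ, μ ≤ k ∧ k ≤ 2 ∧ ∀ u w s : ℝ, k ≤ u + w → u ≤ k → 0 ≤ s → 4 * l ≤ s →
      4 * b * w ≤ s →
      (u ≤ μ → 2 * b * u + 2 * q * min (4247/20000) (min ((μ - u) / 2) (u / 4)) ≤ s) →
      (μ ≤ u → 2 * b * u - 5/6 * (u - μ) ≤ s) →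
      2 * l + 2 * b * w + 2 * q * min (4247/20000) (max 0 (μ - 2 * w) / 3) ≤ s →
      l + 5/4 * b + q * (4247/20000) + μ + (1 - μ) / 3 ≤ 1 + 2813/100000 + s := by
  have hb0 : 0 ≤ b := hq.trans hqb
  rcases le_total (5/12) b with h5 | h5
  · refine ⟨2, by linarith, le_rfl, fun u w s hu1 hu2 hs H5 H3 _ H1 _ => ?_⟩
    rcases le_total 1 w with hw | hw
    · have := mul_le_mul_of_nonneg_left hw hb0
      linarith
    · have := H1 (by linarith)
      nlinarith [mul_nonneg (sub_nonneg.2 h5) (show 0 ≤ u - 1 by linarith)]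
  rcases hμ.eq_or_lt with h0 | h0
  · subst h0
    exact ⟨0, le_rfl, by norm_num, fun u w s _ _ hs H5 _ _ _ _ => by linarith⟩
  obtain ⟨l, rfl⟩ : ∃ l', l = μ * l' := ⟨l / μ, by field_simp⟩
  obtain ⟨v, hv0, hv1, H⟩ := lpU b q l hq hqb
  refine ⟨μ * (1 + v), by nlinarith, by nlinarith, fun u w s hu1 hu2 hs H5 H3 H2 H1 H4 => ?_⟩
  obtain ⟨u, rfl⟩ : ∃ u', u = μ * u' := ⟨u / μ, by field_simp⟩
  obtain ⟨w, rfl⟩ : ∃ w', w = μ * w' := ⟨w / μ, by field_simp⟩
  obtain ⟨s, rfl⟩ : ∃ s', s = μ * s' := ⟨s / μ, by field_simp⟩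
  have cancel : ∀ {x y : ℝ}, μ * x ≤ μ * y → x ≤ y := fun h => le_of_mul_le_mul_left h h0
  have := H u w s (cancel (by linarith)) (cancel hu2) (cancel (by linarith)) (cancel (by linarith))
    (fun h => cancel ?_) (fun h => cancel ?_) (cancel ?_)
  · have e1 := mul_le_mul_of_nonneg_left this hμ
    nlinarith [mul_nonneg (sub_nonneg.2 hμ1) (sub_nonneg.2 h5),
      mul_nonneg (sub_nonneg.2 hμ1) (sub_nonneg.2 hqb)]
  · have e1 := H2 (by nlinarith)
    have e2 : μ * min ((1 - u) / 2) (u / 4) ≤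
        min (4247/20000) (min ((μ - μ * u) / 2) (μ * u / 4)) := by
      have a1 := min_le_left ((1 - u) / 2) (u / 4)
      have a2 := min_le_right ((1 - u) / 2) (u / 4)
      have a3 := mul_le_mul_of_nonneg_left a1 hμ
      have a4 := mul_le_mul_of_nonneg_left a2 hμ
      have a5 := mul_le_mul_of_nonneg_left
        (show min ((1 - u) / 2) (u / 4) ≤ 1/6 by linarith) hμ
      exact le_min (by linarith) (le_min (by linarith) (by linarith))
    have e3 := mul_le_mul_of_nonneg_left e2 hq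
    nlinarith
  · have e1 := H1 (by nlinarith)
    linarith
  · have e2 : μ * min (4247/20000) (max 0 (1 - 2 * w) / 3) ≤
        min (4247/20000) (max 0 (μ - 2 * (μ * w)) / 3) := by
      have a3 := mul_le_mul_of_nonneg_left
        (min_le_left (4247/20000) (max 0 (1 - 2 * w) / 3)) hμ
      have a4 := mul_le_mul_of_nonneg_left
        (min_le_right (4247/20000) (max 0 (1 - 2 * w) / 3)) hμ
      have a5 : μ * max 0 (1 - 2 * w) = max 0 (μ - 2 * (μ * w)) := by
        rw [mul_max_of_nonneg _ _ hμ]; congr 1 <;> ring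
      exact le_min (by linarith) (by linarith)
    have e3 := mul_le_mul_of_nonneg_left e2 hq
    nlinarith

/-- the interface -/
theorem pLP : Pool.Agent.P.MP_323ce2_nt.QX.S_LP (4247/20000) (2813/100000) := by
  intro e μ b q l he hμ hμ1 hb0 hb hq hqb
  obtain ⟨k, hk0, hk2, H⟩ := lpM μ b (min q b) l hμ hμ1 (le_min hq hb0) (min_le_right _ _)
  refine ⟨k, hμ.trans hk0, hk2, fun u w s hu1 hu2 hs H5 H3 H2 H1 H4 => ?_⟩
  have hq1 : min q b ≤ q := min_le_left _ _
  have hq2 : q - e ≤ min q b := le_min (by linarith) (by linarith)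
  have hq0 : 0 ≤ min q b := le_min hq hb0
  generalize min q b = q' at *
  have k2 := mul_le_mul_of_nonneg_right hb he
  have hm1 : min u k ≤ u := min_le_left _ _
  have hm2 : u - e ≤ min u k := le_min (by linarith) (by linarith)
  have k3 := mul_le_mul_of_nonneg_left hm1 hb0
  have := H (min u k) (w + 2 * e) (s + 4 * e) (by linarith) (min_le_right _ _) (by linarith)
    (by linarith) (by linarith) ?_ ?_ ?_
  · linarith
  · intro h
    rcases le_total u μ with h' | h'
    · rw [min_eq_left (h'.trans hk0)]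
      have e1 := H2 h'
      rcases le_total 0 u with hu0 | hu0
      · have := mul_le_mul_of_nonneg_right hq1 (show 0 ≤ min (4247/20000)
          (min ((μ - u) / 2) (u / 4)) from le_min (by norm_num) (le_min (by linarith) (by linarith)))
        linarith
      · have e2 := mul_nonneg hq0 (neg_nonneg.2 (show min (4247/20000)
          (min ((μ - u) / 2) (u / 4)) ≤ 0 from
            (min_le_right _ _).trans ((min_le_right _ _).trans (by linarith))))
        have := mul_nonneg hb0 (neg_nonneg.2 hu0)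
        linarith
    · have e1 := H1 h'
      have e2 : min u k = μ := le_antisymm h (le_min h' hk0)
      rw [e2] at hm2 k3 ⊢
      have e3 : min (4247/20000) (min ((μ - μ) / 2) (μ / 4)) ≤ 0 :=
        (min_le_right _ _).trans ((min_le_left _ _).trans (by linarith))
      have := mul_nonneg hq0 (neg_nonneg.2 e3)
      linarith
  · intro h
    have := H1 (h.trans hm1)
    linarith
  · have e1 : min (4247/20000) (max 0 (μ - 2 * (w + 2 * e)) / 3) ≤
        min (4247/20000) (max 0 (μ - 2 * w) / 3) :=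
      min_le_min le_rfl (div_le_div_of_nonneg_right (max_le_max le_rfl (by linarith)) (by norm_num))
    have e2 : 0 ≤ min (4247/20000) (max 0 (μ - 2 * w) / 3) :=
      le_min (by norm_num) (div_nonneg (le_max_left _ _) (by norm_num))
    have e3 := mul_le_mul_of_nonneg_left e1 hq0
    have e4 := mul_le_mul_of_nonneg_right hq1 e2
    linarith

end QP
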