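import Mathlib

/-! Polynomial inequalities for the flat programme (`x = 5/4`, `d = 4247/20000`,
`a = 2813/100000`). -/

namespace QP

noncomputable section

/-- lower bound for `V` from the pure fourth moment -/
def R1 (b q : ℝ) : ℝ := b / 3 - 4247/15000 * q + 2813/75000
/-- lower bound for `V` from the mixed witness -/
def R4 (b q w : ℝ) : ℝ := b * (2 * w - 1/2) - 4247/10000 * q + 2813/50000 + 2 * q * ((1 - 2 * w) / 3)
/-- the combination that eliminates the weight -/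
def NN (b q w : ℝ) : ℝ := 6 * (1 - 5 * b) * R1 b q + (1 + 20 * b) * R4 b q w
/-- slope of the first witness -/
def gg (b q : ℝ) : ℝ := (2 * b - q) * (5/6 - 2 * b)

end

variable {b q : ℝ}

theorem pP (hq : 0 ≤ q) (hqb : q ≤ b) (hb : 1/5 ≤ b) :
    0 ≤ ((2 * b - 4/3 * q) * (5/6 - q) - gg b q) * R1 b q + gg b q * R4 b q 0 := by
  obtain ⟨r, rfl⟩ : ∃ r, q = b - r := ⟨b - q, by ring⟩
  have hr : 0 ≤ r := by linarith
  have hb0 : 0 ≤ b := by linarith
  have h1 := mul_nonneg hb0 (sq_nonneg (b - 1/4))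
  have h2 := mul_nonneg hr (sq_nonneg (b - 19/100))
  have h3 := mul_nonneg (mul_nonneg hr hr) (sub_nonneg.2 hb)
  have h4 := mul_nonneg (mul_nonneg hr hr) hr
  have h5 := mul_nonneg hr hr
  have h6 := mul_nonneg hr hb0
  have h7 := mul_nonneg hb0 hb0
  have h8 := mul_nonneg hb0 (sq_nonneg (b - 2499/10000))
  simp only [R1, R4, gg]
  nlinarith

theorem pF (hq : 0 ≤ q) (hqb : q ≤ b) (hb : 1/5 ≤ b) :
    0 ≤ R4 b q (1/2) * (5/6 - q) - 1/2 * gg b q := by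
  obtain ⟨r, rfl⟩ : ∃ r, q = b - r := ⟨b - q, by ring⟩
  have hr : 0 ≤ r := by linarith
  simp only [R4, gg]
  nlinarith [sq_nonneg (b - 2218/10000), mul_nonneg hr (sub_nonneg.2 hb), mul_nonneg hr hr]

theorem pG1 (hq : 0 ≤ q) (hqb : q ≤ b) (hb : b ≤ 1/5) :
    0 ≤ R1 b q * (5/6 - q) - 3/10 * gg b q := by
  obtain ⟨r, rfl⟩ : ∃ r, q = b - r := ⟨b - q, by ring⟩
  have hr : 0 ≤ r := by linarith
  have hb0 : 0 ≤ b := by linarith
  simp only [R1, gg]
  nlinarith [sq_nonneg (b - 1/5), mul_nonneg hr hb0, mul_nonneg hr hr]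

theorem pG2 (hq : 0 ≤ q) (hqb : q ≤ b) (hb : b ≤ 1/5) :
    0 ≤ NN b q (3/10) * (5/6 - q) - (7 - 10 * b) * (3/10) * gg b q := by
  obtain ⟨r, rfl⟩ : ∃ r, q = b - r := ⟨b - q, by ring⟩
  have hr : 0 ≤ r := by linarith
  have hb0 : 0 ≤ b := by linarith
  have hc := sub_nonneg.2 hb
  simp only [NN, R1, R4, gg]
  nlinarith [sq_nonneg (b - 1/5), mul_nonneg (mul_nonneg hr hb0) hc,
    mul_nonneg (mul_nonneg hr hr) hc, mul_nonneg (mul_nonneg hb0 hb0) hc, mul_nonneg hr hr]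

theorem pG3 (hq : 0 ≤ q) (hqb : q ≤ b) (hb : b ≤ 1/5) :
    0 ≤ NN b q (1/2) * (5/6 - q) - (7 - 10 * b) * (1/2) * gg b q := by
  obtain ⟨r, rfl⟩ : ∃ r, q = b - r := ⟨b - q, by ring⟩
  have hr : 0 ≤ r := by linarith
  have hb0 : 0 ≤ b := by linarith
  have hc := sub_nonneg.2 hb
  have hrb : 0 ≤ b - r := hq
  simp only [NN, R1, R4, gg]
  rcases le_total b (12/100) with h | h
  · nlinarith [sq_nonneg (b - 12/100), mul_nonneg (mul_nonneg hr hb0) hc, mul_nonneg hr hb0,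
      mul_nonneg (mul_nonneg hb0 hb0) hc, mul_nonneg hr hr, mul_nonneg hrb (sub_nonneg.2 h),
      mul_nonneg hb0 (sub_nonneg.2 h)]
  · nlinarith [mul_nonneg (sq_nonneg (b - 177/1000)) hc, sq_nonneg (b - 177/1000),
      mul_nonneg (mul_nonneg hr hb0) hc, mul_nonneg hr (sub_nonneg.2 h),
      mul_nonneg (mul_nonneg hb0 hb0) hc, mul_nonneg hr hr, mul_nonneg hc (sub_nonneg.2 h)]

theorem pG5a (hq : 0 ≤ q) (hqb : q ≤ b) (hb : b ≤ 1/5) :
    0 ≤ 5/6 * NN b q (4247/10000) -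
      (7 - 10 * b) * (5/6 - 2 * b) * (2 * b * (4247/10000) - 4247/10000 * q) := by
  obtain ⟨r, rfl⟩ : ∃ r, q = b - r := ⟨b - q, by ring⟩
  have hr : 0 ≤ r := by linarith
  have hb0 : 0 ≤ b := by linarith
  have hc := sub_nonneg.2 hb
  have hrb : 0 ≤ b - r := hq
  simp only [NN, R1, R4]
  rcases le_total b (13/100) with h | h
  · nlinarith [sq_nonneg (b - 13/100), mul_nonneg (mul_nonneg hr hb0) hc, mul_nonneg hr hb0,
      mul_nonneg (mul_nonneg hb0 hb0) hc, mul_nonneg hrb (sub_nonneg.2 h),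
      mul_nonneg hb0 (sub_nonneg.2 h)]
  · nlinarith [sq_nonneg (b - 17/100), mul_nonneg (mul_nonneg hr hb0) hc,
      mul_nonneg hr (sub_nonneg.2 h), mul_nonneg (mul_nonneg hb0 hb0) hc]

theorem pG5b (hq : 0 ≤ q) (hqb : q ≤ b) (hb : b ≤ 1/5) :
    0 ≤ 5/6 * NN b q (1/2) -
      (7 - 10 * b) * (5/6 - 2 * b) * (2 * b * (1/2) - 4247/10000 * q) := by
  obtain ⟨r, rfl⟩ : ∃ r, q = b - r := ⟨b - q, by ring⟩
  have hr : 0 ≤ r := by linarith
  have hb0 : 0 ≤ b := by linarith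
  have hc := sub_nonneg.2 hb
  have hrb : 0 ≤ b - r := hq
  simp only [NN, R1, R4]
  rcases le_total b (1/10) with h | h
  · nlinarith [sq_nonneg (b - 1/10), mul_nonneg (mul_nonneg hr hb0) hc, mul_nonneg hr hb0,
      mul_nonneg (mul_nonneg hb0 hb0) hc, mul_nonneg hrb (sub_nonneg.2 h),
      mul_nonneg hb0 (sub_nonneg.2 h)]
  · nlinarith [sq_nonneg (b - 148/1000), mul_nonneg (mul_nonneg hr hb0) hc,
      mul_nonneg hr (sub_nonneg.2 h), mul_nonneg (mul_nonneg hb0 hb0) hc]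

end QP
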